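import Mathlib
import Pool.Agent.H4.SP2

set_option maxHeartbeats 400000

open Metric Filter Topology Module Function

namespace Pool.Agent.Results.MP_e86906_an.Yes

open Pool.Agent.H4.SP1 Pool.Agent.H4.SP2

/-- `(F, δ)` is the complex Lipschitz-free space over the pointed metric space `(M, o)`:
the points `δ x` span a dense subspace and the norm of a finite combination `∑ a_x δ x` is its
norm as a functional on `Lip₀(M)`, i.e. the supremum of `|∑ a_x g x|` over `1`-Lipschitz
`g : M → ℂ` with `g o = 0`. -/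
def IsFreeSpace {M F : Type*} [MetricSpace M] [NormedAddCommGroup F] [NormedSpace ℂ F]
    (o : M) (δ : M → F) : Prop :=
  Dense ((Submodule.span ℂ (Set.range δ) : Submodule ℂ F) : Set F) ∧
    ∀ c : M →₀ ℂ, IsLUB
      {t : ℝ | ∃ g : M → ℂ, LipschitzWith 1 g ∧ g o = 0 ∧ t = ‖c.sum fun x a => a * g x‖}
      ‖c.sum fun x a => a • δ x‖

/-- The set `A(f)` of orders of periodic points other than the base point. -/
def orders {M : Type*} (o : M) (f : M → M) : Set ℕ :=
  {n | 1 ≤ n ∧ ∃ x, x ≠ o ∧ f^[n] x = x ∧ ∀ k, 1 ≤ k → k < n → f^[k] x ≠ x}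

theorem toFr {M F : Type*} [MetricSpace M] [NormedAddCommGroup F] [NormedSpace ℂ F]
    {o : M} {δ : M → F} (h : IsFreeSpace o δ) : Fr o δ := by
  have hs : ∀ c : M →₀ ℂ, (c.sum fun x a => a • δ x) = Finsupp.linearCombination ℂ δ c :=
    fun c => rfl
  have hs' : ∀ (g : M → ℂ) (c : M →₀ ℂ),
      (c.sum fun x a => a * g x) = Finsupp.linearCombination ℂ g c := fun g c => rfl
  refine ⟨h.1, fun x y => ?_, ?_, fun g hg => ?_⟩
  · have h1 := (h.2 (Finsupp.single x 1 - Finsupp.single y 1)).2
      (show dist x y ∈ upperBounds _ from by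
      rintro _ ⟨g, hg, -, rfl⟩
      rw [hs']
      have := hg.dist_le_mul x y
      simpa [dist_eq_norm] using this)
    rw [hs] at h1
    simpa using h1
  · have h1 := (h.2 (Finsupp.single o 1)).2 (show (0 : ℝ) ∈ upperBounds _ from by
      rintro _ ⟨g, -, hg, rfl⟩
      rw [hs']
      simp [hg])
    rw [hs] at h1
    simpa using h1
  · let G : M → ℂ := fun x => ((g x - g o : ℝ) : ℂ)
    have hG : LipschitzWith 1 G := by
      refine LipschitzWith.of_dist_le_mul fun x y => ?_
      have := hg.dist_le_mul x y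
      simp only [G]
      rw [dist_eq_norm, ← Complex.ofReal_sub, Complex.norm_real, sub_sub_sub_cancel_right,
        ← dist_eq_norm]
      exact this
    have hd : DenseRange (Finsupp.linearCombination ℂ δ) := by
      have := h.1
      rw [← Finsupp.range_linearCombination] at this
      exact this
    have hn : ∀ c, ‖Finsupp.linearCombination ℂ G c‖ ≤ 1 * ‖Finsupp.linearCombination ℂ δ c‖ := by
      intro c
      rw [one_mul, ← hs, ← hs']
      exact (h.2 c).1 ⟨G, hG, by simp [G], rfl⟩
    refine ⟨(Finsupp.linearCombination ℂ G).extendOfNorm (Finsupp.linearCombination ℂ δ),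
      LinearMap.opNorm_extendOfNorm_le hd zero_le_one hn, fun x => ?_⟩
    have := LinearMap.extendOfNorm_eq hd ⟨1, hn⟩ (Finsupp.single x 1)
    simpa [G] using this

theorem periodic_eigen {M F : Type*} [MetricSpace M] [NormedAddCommGroup F] [NormedSpace ℂ F]
    {o : M} {δ : M → F} (h : Fr o δ) {f : M → M} {T : F →L[ℂ] F}
    (hT : ∀ x, T (δ x) = δ (f x)) {n : ℕ} (hn : n ∈ orders o f) {z : ℂ} (hz : z ^ n = 1) :
    Module.End.HasEigenvalue (T : Module.End ℂ F) z := by
  obtain ⟨hn1, x, hxo, hxn, hk⟩ := hn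
  have hz0 : z ≠ 0 := by
    rintro rfl
    rw [zero_pow (by omega)] at hz
    exact zero_ne_one hz
  let a : ℕ → F := fun k => (z⁻¹) ^ k • δ (f^[k] x)
  have ha : ∀ k, T (a k) = z • a (k + 1) := by
    intro k
    simp only [a]
    rw [map_smul, hT, iterate_succ_apply', smul_smul]
    congr 1
    rw [pow_succ]; field_simp
  have han : a n = a 0 := by
    simp only [a]
    rw [hxn, inv_pow, hz]; simp
  refine Module.End.hasEigenvalue_of_hasEigenvector (x := ∑ k ∈ Finset.range n, a k) ⟨?_, ?_⟩
  · rw [Module.End.mem_eigenspace_iff]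
    change T _ = _
    rw [map_sum]
    simp only [ha]
    rw [← Finset.smul_sum]
    congr 1
    have h1 := Finset.sum_range_succ a n
    have h2 := Finset.sum_range_succ' a n
    rw [h1, han] at h2
    exact (add_right_cancel h2).symm
  · intro h0
    let S : Set M := insert o ((fun k => f^[k] x) '' {k | 1 ≤ k ∧ k < n})
    have hS : S.Finite := (((Set.finite_lt_nat n).subset fun k hk => hk.2).image _).insert _
    have hxS : x ∉ S := by
      rintro (h1 | ⟨k, hk1, hk2⟩)
      · exact hxo h1
      · exact hk k hk1.1 hk1.2 hk2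
    obtain ⟨φ, -, hφ⟩ := h.ext (fun w => infDist w S) (lipschitz_infDist_pt S)
    have ho : infDist o S = 0 := infDist_zero_of_mem (Set.mem_insert _ _)
    have h1 := congrArg φ h0
    rw [map_sum, map_zero, Finset.sum_eq_single 0] at h1
    · simp only [a, pow_zero, one_smul, iterate_zero, id, hφ, ho, sub_zero,
        Complex.ofReal_eq_zero] at h1
      exact hxS ((hS.isClosed.mem_iff_infDist_zero ⟨o, Set.mem_insert _ _⟩).2 h1)
    · intro k hk1 hk0
      have : infDist (f^[k] x) S = 0 := infDist_zero_of_mem (Set.mem_insert_of_mem _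
        ⟨k, ⟨Nat.one_le_iff_ne_zero.2 hk0, Finset.mem_range.1 hk1⟩, rfl⟩)
      simp [a, hφ, ho, this]
    · intro h2
      exact absurd (Finset.mem_range.2 hn1) h2

theorem result {M F : Type*} [MetricSpace M] [CompleteSpace M] [NormedAddCommGroup F]
    [NormedSpace ℂ F] [CompleteSpace F] (o : M) (δ : M → F) (hδ : IsFreeSpace o δ)
    (f : M → M) (L : NNReal) (hf : LipschitzWith L f) (hfo : f o = o)
    (T : F →L[ℂ] F) (hT : ∀ x, T (δ x) = δ (f x)) (hc : IsCompactOperator T) :
    (orders o f).Finite ∧ spectrum ℂ T \ {0} = ⋃ n ∈ orders o f, {z : ℂ | z ^ n = 1} := by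
  have h := toFr hδ
  constructor
  · refine ((finite_periodic h hT hc hf hfo).image (minimalPeriod f)).subset ?_
    rintro n ⟨hn1, x, -, hxn, hk⟩
    have hp : x ∈ periodicPts f := ⟨n, hn1, hxn⟩
    refine ⟨x, hp, le_antisymm (IsPeriodicPt.minimalPeriod_le hn1 hxn) ?_⟩
    by_contra hlt
    exact hk _ (minimalPeriod_pos_of_mem_periodicPts hp) (not_le.1 hlt)
      (isPeriodicPt_minimalPeriod f x)
  · ext z
    simp only [Set.mem_sdiff, Set.mem_singleton_iff, Set.mem_iUnion, Set.mem_ofPred_eq]
    constructor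
    · rintro ⟨hz, hz0⟩
      obtain ⟨φ, hφ0, hφ⟩ := dual_eigen hc hz0 hz
      obtain ⟨p, hpo, hp, hμ⟩ := eigenfun h hT hc hf hfo hz0 hφ0 hφ
      refine ⟨_, ⟨minimalPeriod_pos_of_mem_periodicPts hp, p, hpo,
        isPeriodicPt_minimalPeriod f p, fun k hk1 hk2 => ?_⟩, hμ⟩
      exact not_isPeriodicPt_of_pos_of_lt_minimalPeriod (by omega) hk2
    · rintro ⟨n, hn, hz⟩
      have hz0 : z ≠ 0 := by
        rintro rfl
        rw [zero_pow (by have := hn.1; omega)] at hz
        exact zero_ne_one hz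
      exact ⟨(hc.hasEigenvalue_iff_mem_spectrum hz0).1 (periodic_eigen h hT hn hz), hz0⟩

end Pool.Agent.Results.MP_e86906_an.Yes
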